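import Mathlib
import Pool.Agent.Helper697.BoxDefs
import Pool.Agent.Helper697.BoxFinal

/-!
A polygon that folds into four pairwise different boxes.

The polygon is a polyomino of area 5344 (its cells are the finite set `Box.P`, its boundary is one
simple closed lattice polygon with 6082 unit sides) and the four boxes are `1 × 8 × 296`,
`1 × 26 × 98`, `1 × 80 × 32` and `1 × 242 × 10`.
-/

namespace Pool.Agent.Results.MP_98e56f_co.FourBoxes

open Pool.Agent.Helper697.Box

/-- There are a polygon and four pairwise different boxes such that the polygon folds into each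
of the boxes. -/
theorem result : ∃ (P : Set Plane) (B : Fin 4 → ℝ × ℝ × ℝ), IsPolygon P ∧
    (∀ i, 0 < (B i).1 ∧ 0 < (B i).2.1 ∧ 0 < (B i).2.2) ∧
    (∀ i j, i ≠ j → DifferentBoxes (B i) (B j)) ∧
    (∀ i, FoldsIntoBox P (B i).1 (B i).2.1 (B i).2.2) :=
  ⟨_, boxes, bdWalk.isPolygon, boxes_pos, boxes_diff, folds_boxes⟩

end Pool.Agent.Results.MP_98e56f_co.FourBoxes
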